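import Pool.Agent.helper34.MO.Main

/-!
# MP_0631c5_co: positive square energy of maximal outerplanar graphs

Every maximal outerplanar graph `G` of order `n ≥ 8` satisfies `s⁺(G) ≥ 2n`.
-/

namespace Pool.Agent.Results.MP_0631c5_co.SquareEnergy

/-- Outerplanar graph: the vertices can be placed on a circle such that no two edges cross. -/
def Outerplanar {V : Type} [Fintype V] (G : SimpleGraph V) : Prop :=
  ∃ s : V ≃ Fin (Fintype.card V), ∀ a b c d : V, s a < s b → s b < s c → s c < s d →
    ¬ (G.Adj a c ∧ G.Adj b d)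

/-- Maximal outerplanar graph: outerplanar, and adding any edge between two non-adjacent vertices destroys this. -/
def MaximalOuterplanar {V : Type} [Fintype V] (G : SimpleGraph V) : Prop :=
  Outerplanar G ∧ ∀ a b : V, a ≠ b → ¬ G.Adj a b → ¬ Outerplanar (G ⊔ SimpleGraph.edge a b)

open Classical in
theorem adj_isHermitian {V : Type} (G : SimpleGraph V) : (G.adjMatrix ℝ).IsHermitian := by
  rw [Matrix.IsHermitian, Matrix.conjTranspose_eq_transpose_of_trivial]
  exact G.isSymm_adjMatrix

open Classical in
/-- The positive square energy `s⁺(G)`: the sum of the squares of the positive eigenvalues. -/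
noncomputable def splus {V : Type} [Fintype V] (G : SimpleGraph V) : ℝ :=
  ∑ i, if 0 < (adj_isHermitian G).eigenvalues i then (adj_isHermitian G).eigenvalues i ^ 2 else 0

/-- Full answer to Q1: `s⁺(G) ≥ 2n` for every maximal outerplanar graph of order `n ≥ 8`. -/
theorem result : ∀ (V : Type) [Fintype V] (G : SimpleGraph V), MaximalOuterplanar G →
    8 ≤ Fintype.card V → 2 * (Fintype.card V : ℝ) ≤ splus G := by
  intro V _ G hG hn
  have h : Pool.Agent.MO.MaximalOuterplanar G := by
    refine ⟨hG.1, fun H hGH hH => ?_⟩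
    by_contra hne
    obtain ⟨a, b, hab, hnab⟩ : ∃ a b : V, H.Adj a b ∧ ¬ G.Adj a b := by
      by_contra hcon
      push Not at hcon
      exact hne (le_antisymm (fun a b hab => hcon a b hab) hGH)
    refine hG.2 a b hab.ne hnab ?_
    obtain ⟨s, hs⟩ := hH
    refine ⟨s, fun x y z w hxy hyz hzw hcr => hs x y z w hxy hyz hzw ?_⟩
    have hle : G ⊔ SimpleGraph.edge a b ≤ H := sup_le hGH (by
      intro x y hxy
      rw [SimpleGraph.edge_adj] at hxy
      rcases hxy.1 with ⟨rfl, rfl⟩ | ⟨rfl, rfl⟩
      · exact hab
      · exact hab.symm)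
    exact ⟨hle hcr.1, hle hcr.2⟩
  exact Pool.Agent.MO.main V G h hn

end Pool.Agent.Results.MP_0631c5_co.SquareEnergy
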